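import Mathlib

namespace Pool.Agent.Results.MP_08a4a0_co.Ten

/-- the triangular ladder -/
def T (n : ℕ) : SimpleGraph (Fin n) :=
  SimpleGraph.fromRel fun i j => j.1 = i.1 + 1 ∨ j.1 = i.1 + 2

/-- distinct edges with both ends coloured receive distinct colour multisets -/
def Legal {V : Type} {k : ℕ} (G : SimpleGraph V) (c : V → Option (Fin k)) : Prop :=
  ∀ u v u' v', G.Adj u v → G.Adj u' v' → c u ≠ none → c v ≠ none → c u' ≠ none → c v' ≠ none →
    s(c u, c v) = s(c u', c v') → s(u, v) = s(u', v')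

/-- a legal move -/
def Move {V : Type} [DecidableEq V] {k : ℕ} (G : SimpleGraph V) (c c' : V → Option (Fin k)) :
    Prop :=
  ∃ v x, c v = none ∧ c' = Function.update c v (some x) ∧ Legal G c'

/-- the player to move can force making the last move -/
inductive Wins {V : Type} [DecidableEq V] {k : ℕ} (G : SimpleGraph V) :
    (V → Option (Fin k)) → Prop
  | mk (c c' : V → Option (Fin k)) : Move G c c' → (∀ c'', Move G c' c'' → Wins G c'') → Wins G c

theorem not_both {V : Type} [DecidableEq V] {k : ℕ} (G : SimpleGraph V)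
    (c : V → Option (Fin k)) (h : Wins G c) : ¬ ∀ c', Move G c c' → Wins G c' := by
  induction h with
  | mk c c' hm _ ih =>
    intro hall
    cases hall c' hm with
    | mk _ c'' hm' hr => exact ih c'' hm' hr

theorem legal_map {V : Type} {k : ℕ} (G : SimpleGraph V) (σ : Equiv.Perm (Fin k))
    (c : V → Option (Fin k)) (h : Legal G c) : Legal G (fun v => (c v).map σ) := by
  intro u v u' v' h1 h2 a b a' b' e
  have hi : Function.Injective (Option.map σ) := Option.map_injective σ.injective
  refine h u v u' v' h1 h2 (fun e => a (by simp [e])) (fun e => b (by simp [e]))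
    (fun e => a' (by simp [e])) (fun e => b' (by simp [e])) ?_
  rw [Sym2.eq_iff] at e ⊢
  rcases e with ⟨e1, e2⟩ | ⟨e1, e2⟩
  · exact Or.inl ⟨hi e1, hi e2⟩
  · exact Or.inr ⟨hi e1, hi e2⟩

theorem move_map {V : Type} [DecidableEq V] {k : ℕ} (G : SimpleGraph V) (σ : Equiv.Perm (Fin k))
    (c c' : V → Option (Fin k)) (h : Move G c c') :
    Move G (fun v => (c v).map σ) (fun v => (c' v).map σ) := by
  obtain ⟨v, x, h1, h2, h3⟩ := h
  refine ⟨v, σ x, by simp [h1], ?_, legal_map G σ c' h3⟩
  funext w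
  by_cases hw : w = v
  · subst hw; simp [h2]
  · simp [h2, hw]

theorem wins_map {V : Type} [DecidableEq V] {k : ℕ} (G : SimpleGraph V) (σ : Equiv.Perm (Fin k))
    (c : V → Option (Fin k)) (h : Wins G c) : Wins G (fun v => (c v).map σ) := by
  induction h with
  | mk c c' hm _ ih =>
    refine Wins.mk _ _ (move_map G σ c c' hm) ?_
    intro c'' hm'
    have h1 := move_map G σ.symm _ _ hm'
    have e1 : (fun v => ((c' v).map σ).map σ.symm) = c' := by
      funext v; cases c' v <;> simp
    rw [e1] at h1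
    have h2 := ih _ h1
    have e2 : (fun v => ((c'' v).map σ.symm).map σ) = c'' := by
      funext v; cases c'' v <;> simp
    rw [e2] at h2
    exact h2

def force {β : Type} (n : ℕ) (k : ℕ → β) : β := Nat.casesOn n (k 0) (fun m => k (Nat.succ m))

theorem force_eq {β : Type} (n : ℕ) (k : ℕ → β) : force n k = k n := by cases n <;> rfl

def E : List (ℕ × ℕ) := [(0,1),(0,2),(1,2),(1,3),(2,3),(2,4),(3,4),(3,5),(4,5),(4,6),(5,6),(5,7),
  (6,7),(6,8),(7,8),(7,9),(8,9)]

def code (c : ℕ → ℕ) (e : ℕ × ℕ) : ℕ :=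
  force (c e.1) fun a => force (c e.2) fun b =>
    bif Nat.beq a 0 || Nat.beq b 0 then 100 + 10 * e.1 + e.2
    else bif Nat.ble a b then 8 * a + b else 8 * b + a

def nd : List ℕ → ℕ → Bool
  | [], _ => true
  | q :: t, m => force q fun q => !m.testBit q && force (Nat.lor m (Nat.pow 2 q)) fun m' => nd t m'

theorem nd_iff : ∀ (L : List ℕ) (m : ℕ),
    nd L m = true ↔ L.Nodup ∧ ∀ q ∈ L, m.testBit q = false := by
  intro L
  induction L with
  | nil => intro m; simp [nd]
  | cons q t ih =>
    intro m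
    simp only [nd, force_eq, Nat.lor_eq, Nat.pow_eq, Bool.and_eq_true, Bool.not_eq_true', ih, List.nodup_cons, List.mem_cons,
      forall_eq_or_imp, Nat.testBit_or, Nat.testBit_two_pow, Bool.or_eq_false_iff,
      decide_eq_false_iff_not]
    constructor
    · rintro ⟨h1, h2, h3⟩
      exact ⟨⟨fun h => (h3 q h).2 rfl, h2⟩, h1, fun a ha => (h3 a ha).1⟩
    · rintro ⟨⟨h1, h2⟩, h3, h4⟩
      exact ⟨h3, h2, fun a ha => ⟨h4 a ha, fun e => h1 (e ▸ ha)⟩⟩

def legalB (c : ℕ → ℕ) : Bool := nd (E.map (code c)) 0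

theorem legalB_iff (c : ℕ → ℕ) :
    legalB c = true ↔ ∀ e ∈ E, ∀ e' ∈ E, code c e = code c e' → e = e' := by
  unfold legalB
  rw [nd_iff, List.nodup_map_iff_inj_on (by decide)]
  simp

def dec (c : ℕ → ℕ) (i : Fin 10) : Option (Fin 7) :=
  if h : 0 < c i ∧ c i ≤ 7 then some ⟨c i - 1, by omega⟩ else none

theorem dec_none (c : ℕ → ℕ) (h : ∀ j, c j ≤ 7) (i : Fin 10) : dec c i = none ↔ c i = 0 := by
  unfold dec
  have := h i
  split_ifs with h1
  · simp; omega
  · simp; omega

theorem dec_eq (c : ℕ → ℕ) (h : ∀ j, c j ≤ 7) (i j : Fin 10) : dec c i = dec c j ↔ c i = c j := by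
  unfold dec
  have := h i
  have := h j
  split_ifs with h1 h2 h2
  · simp [Fin.ext_iff]; omega
  · simp; omega
  · simp; omega
  · simp; omega

theorem code_eq (c : ℕ → ℕ) (e : ℕ × ℕ) : code c e =
    if c e.1 = 0 ∨ c e.2 = 0 then 100 + 10 * e.1 + e.2
    else if c e.1 ≤ c e.2 then 8 * c e.1 + c e.2 else 8 * c e.2 + c e.1 := by
  unfold code
  simp only [force_eq, Bool.cond_eq_ite, Bool.or_eq_true, Nat.beq_eq, Nat.ble_eq]

theorem E1 : ∀ e ∈ E, e.1 < e.2 ∧ e.2 < 10 ∧ (e.2 = e.1 + 1 ∨ e.2 = e.1 + 2) := by decide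

theorem E2 : ∀ u v : Fin 10, (v.1 = u.1 + 1 ∨ v.1 = u.1 + 2) → (u.1, v.1) ∈ E := by decide

theorem legal_iff (c : ℕ → ℕ) (h : ∀ j, c j ≤ 7) : Legal (T 10) (dec c) ↔ legalB c = true := by
  rw [legalB_iff]
  constructor
  · intro hL e he e' he' hc
    obtain ⟨a1, a2, a3⟩ := E1 e he
    obtain ⟨b1, b2, b3⟩ := E1 e' he'
    rw [code_eq, code_eq] at hc
    have k1 := h e.1
    have k2 := h e.2
    have k3 := h e'.1
    have k4 := h e'.2
    by_cases g : c e.1 = 0 ∨ c e.2 = 0
    · rw [if_pos g] at hc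
      by_cases g' : c e'.1 = 0 ∨ c e'.2 = 0
      · rw [if_pos g'] at hc
        exact Prod.ext (by omega) (by omega)
      · rw [if_neg g'] at hc
        split_ifs at hc <;> omega
    · rw [if_neg g] at hc
      by_cases g' : c e'.1 = 0 ∨ c e'.2 = 0
      · rw [if_pos g'] at hc
        split_ifs at hc <;> omega
      · rw [if_neg g'] at hc
        have := hL ⟨e.1, by omega⟩ ⟨e.2, a2⟩ ⟨e'.1, by omega⟩ ⟨e'.2, b2⟩
          (by simp only [T, SimpleGraph.fromRel_adj, ne_eq, Fin.mk.injEq]; omega)
          (by simp only [T, SimpleGraph.fromRel_adj, ne_eq, Fin.mk.injEq]; omega)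
          (by rw [ne_eq, dec_none c h]; exact fun e => g (Or.inl e))
          (by rw [ne_eq, dec_none c h]; exact fun e => g (Or.inr e))
          (by rw [ne_eq, dec_none c h]; exact fun e => g' (Or.inl e))
          (by rw [ne_eq, dec_none c h]; exact fun e => g' (Or.inr e))
          (by
            rw [Sym2.eq_iff, dec_eq c h, dec_eq c h, dec_eq c h, dec_eq c h]
            simp only
            split_ifs at hc <;> omega)
        rw [Sym2.eq_iff] at this
        simp only [Fin.mk.injEq] at this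
        exact Prod.ext (by omega) (by omega)
  · intro hB
    have key : ∀ u v u' v' : Fin 10, (v.1 = u.1 + 1 ∨ v.1 = u.1 + 2) →
        (v'.1 = u'.1 + 1 ∨ v'.1 = u'.1 + 2) → c u ≠ 0 → c v ≠ 0 →
        ((c u = c u' ∧ c v = c v') ∨ (c u = c v' ∧ c v = c u')) → u = u' ∧ v = v' := by
      intro u v u' v' h1 h2 g1 g2 g3
      have := hB _ (E2 u v h1) _ (E2 u' v' h2) (by
        rw [code_eq, code_eq]
        simp only
        split_ifs <;> omega)
      simp only [Prod.mk.injEq] at this
      exact ⟨Fin.ext this.1, Fin.ext this.2⟩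
    intro u v u' v' h1 h2 g1 g2 _ _ e
    rw [Sym2.eq_iff, dec_eq c h, dec_eq c h, dec_eq c h, dec_eq c h] at e
    rw [ne_eq, dec_none c h] at g1 g2
    simp only [T, SimpleGraph.fromRel_adj] at h1 h2
    rw [Sym2.eq_iff]
    rcases h1.2 with h1 | h1 <;> rcases h2.2 with h2 | h2
    · exact Or.inl (key u v u' v' h1 h2 g1 g2 e)
    · exact Or.inr (key u v v' u' h1 h2 g1 g2 (by omega))
    · exact Or.inr (key v u u' v' h1 h2 g2 g1 (by omega)).symm
    · exact Or.inl (key v u v' u' h1 h2 g2 g1 (by omega)).symm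

def upd (c : ℕ → ℕ) (i x : ℕ) : ℕ → ℕ := fun j => bif Nat.beq j i then x else c j

theorem upd_eq (c : ℕ → ℕ) (i x j : ℕ) : upd c i x j = if j = i then x else c j := by
  unfold upd
  simp only [Bool.cond_eq_ite, Nat.beq_eq]

theorem dec_upd (c : ℕ → ℕ) (i : Fin 10) (x : Fin 7) :
    dec (upd c i (x + 1)) = Function.update (dec c) i (some x) := by
  funext j
  by_cases hj : j = i
  · subst hj
    have := x.2
    simp [dec, upd_eq]
  · have : (j : ℕ) ≠ i := fun e => hj (Fin.ext e)
    simp [dec, upd_eq, hj, this]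

def dig (p j : ℕ) : ℕ := Nat.mod (Nat.shiftRight p (Nat.mul 3 j)) 8

def put (p i x : ℕ) : ℕ := Nat.add p (Nat.shiftLeft x (Nat.mul 3 i))

theorem dig_eq (p j : ℕ) : dig p j = p / 8 ^ j % 8 := by
  show p >>> (3 * j) % 8 = _
  rw [Nat.shiftRight_eq_div_pow, pow_mul]; norm_num

theorem dig_put (p i x : ℕ) (h : dig p i = 0) (hx : x ≤ 7) : dig (put p i x) = upd (dig p) i x := by
  funext j
  have e : put p i x = p + x * 8 ^ i := by
    show p + x <<< (3 * i) = _
    rw [Nat.shiftLeft_eq, pow_mul]; norm_num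
  rw [upd_eq, dig_eq, dig_eq, e]
  rw [dig_eq] at h
  have hp : 0 < 8 ^ i := by positivity
  rcases lt_trichotomy j i with hj | rfl | hj
  · rw [if_neg hj.ne]
    obtain ⟨d, rfl⟩ := Nat.exists_eq_add_of_lt hj
    rw [show x * 8 ^ (j + d + 1) = (x * 8 ^ d * 8) * 8 ^ j by ring,
      Nat.add_mul_div_right _ _ (by positivity), Nat.add_mul_mod_self_right]
  · rw [if_pos rfl, Nat.add_mul_div_right _ _ hp]; omega
  · rw [if_neg hj.ne']
    obtain ⟨d, rfl⟩ := Nat.exists_eq_add_of_lt hj
    rw [show 8 ^ (i + d + 1) = 8 ^ i * (8 * 8 ^ d) by ring, ← Nat.div_div_eq_div_mul,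
      ← Nat.div_div_eq_div_mul, ← Nat.div_div_eq_div_mul, ← Nat.div_div_eq_div_mul,
      Nat.add_mul_div_right _ _ hp, show (p / 8 ^ i + x) / 8 = p / 8 ^ i / 8 by omega]

def loop (g : ℕ → ℕ → ℕ) : ℕ → ℕ → ℕ
  | 0, s => s
  | r + 1, s => force (loop g r s) fun s' => bif Nat.beq s' 0 then 0 else g r s'

theorem loop_spec (g : ℕ → ℕ → ℕ) (s : ℕ) : ∀ n, loop g n s ≠ 0 → ∀ r < n, ∃ s', g r s' ≠ 0 := by
  intro n
  induction n with
  | zero => intro _ r h; omega
  | succ n ih =>
    intro h r hr
    simp only [loop, force_eq, Bool.cond_eq_ite, Nat.beq_eq] at h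
    split_ifs at h with h0
    · exact absurd rfl h
    · rcases Nat.lt_succ_iff_lt_or_eq.1 hr with h1 | rfl
      · exact ih h0 r h1
      · exact ⟨_, h⟩

def chk : ℕ → ℕ → ℕ → ℕ → ℕ
  | 0, _, _, _ => 0
  | f + 1, p, m, s => force (s % 128 / 8) fun i => force (s % 8) fun x =>
      force (put p i x) fun p' =>
      bif Nat.ble i 9 && (Nat.ble 1 x && (Nat.beq (dig p i) 0 && legalB (dig p'))) then
        force (max m x) fun m' =>
        loop (fun r s' => force (r / 7) fun i2 => force (r % 7 + 1) fun x2 =>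
          bif Nat.ble x2 (m' + 1) && (Nat.beq (dig p' i2) 0 &&
              force (put p' i2 x2) fun p'' => legalB (dig p'')) then
            force (put p' i2 x2) fun p'' => force (max m' x2) fun m'' => chk f p'' m'' s'
          else s') 70 (s / 128)
      else 0

theorem chk_spec : ∀ f p m s, m ≤ 7 → (∀ j, dig p j ≤ m) → chk f p m s ≠ 0 →
    Wins (T 10) (dec (dig p)) := by
  intro f
  induction f with
  | zero => intro c m s _ _ h; exact absurd rfl h
  | succ f ih =>
    intro p m s hm hc h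
    simp only [chk, force_eq, Bool.cond_eq_ite, Bool.and_eq_true, Nat.ble_eq, Nat.beq_eq] at h
    split_ifs at h with h0
    swap
    · exact absurd rfl h
    obtain ⟨hi, hx, hci, hl⟩ := h0
    generalize s % 128 / 8 = i at *
    have hx7 : s % 8 ≤ 7 := by omega
    generalize s % 8 = x at *
    have hput := dig_put p i x hci hx7
    generalize put p i x = p' at *
    generalize dig p = c at *
    rw [hput] at hl
    have hc7 : ∀ j, c j ≤ 7 := fun j => (hc j).trans hm
    have hc' : ∀ j, upd c i x j ≤ max m x := by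
      intro j; rw [upd_eq]; have := hc j; split_ifs <;> omega
    have hc'7 : ∀ j, upd c i x j ≤ 7 := fun j => (hc' j).trans (by omega)
    have hd := dec_upd c ⟨i, by omega⟩ ⟨x - 1, by omega⟩
    simp only [Nat.sub_add_cancel hx] at hd
    refine Wins.mk _ (dec (upd c i x)) ⟨⟨i, by omega⟩, ⟨x - 1, by omega⟩, (dec_none c hc7 _).2 hci,
      hd, (legal_iff _ hc'7).2 hl⟩ ?_
    have main : ∀ (v : Fin 10) (y : Fin 7), (y : ℕ) ≤ max m x → dec (upd c i x) v = none →
        Legal (T 10) (Function.update (dec (upd c i x)) v (some y)) →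
        Wins (T 10) (Function.update (dec (upd c i x)) v (some y)) := by
      intro v y hy hv hL
      rw [← dec_upd] at hL ⊢
      have hy7 := y.2
      have hv10 := v.2
      have hc'' : ∀ j, upd (upd c i x) v (y + 1) j ≤ max (max m x) (y + 1) := by
        intro j; rw [upd_eq]; have := hc' j; split_ifs <;> omega
      have hv0 : dig p' v = 0 := by rw [hput]; exact (dec_none _ hc'7 v).1 hv
      have hput2 := dig_put p' v (y + 1) hv0 (by omega)
      rw [hput] at hput2
      obtain ⟨s', hs'⟩ := loop_spec _ _ _ h (7 * v + y) (by omega)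
      rw [show (7 * (v : ℕ) + y) / 7 = v by omega, show (7 * (v : ℕ) + y) % 7 = y by omega,
        if_pos ⟨by omega, hv0, by
          rw [hput2]; exact (legal_iff _ (fun j => (hc'' j).trans (by omega))).1 hL⟩] at hs'
      rw [← hput2] at hc'' ⊢
      exact ih _ _ _ (by omega) hc'' hs'
    rintro c'' ⟨v, y, hv, rfl, hL⟩
    by_cases hy : (y : ℕ) ≤ max m x
    · exact main v y hy hv hL
    · have hy7 := y.2
      let z : Fin 7 := ⟨max m x, by omega⟩
      have hfix : ∀ a b : Fin 7, max m x ≤ a → max m x ≤ b →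
          (fun w => (Function.update (dec (upd c i x)) v (some a) w).map (Equiv.swap a b)) =
            Function.update (dec (upd c i x)) v (some b) := by
        intro a b ha hb
        funext w
        by_cases hw : w = v
        · subst hw; simp
        · simp only [Function.update_of_ne hw]
          have := hc' w
          unfold dec
          split_ifs with h1
          · simp only [Option.map_some, Option.some.injEq]
            apply Equiv.swap_apply_of_ne_of_ne <;> (intro e; rw [Fin.ext_iff] at e; simp only at e; omega)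
          · rfl
      have h1 := legal_map _ (Equiv.swap y z) _ hL
      rw [hfix y z (by omega) le_rfl] at h1
      have h2 := wins_map _ (Equiv.swap z y) _ (main v z le_rfl hv h1)
      rw [hfix z y le_rfl (by omega)] at h2
      exact h2

def nf : ℕ → ℕ → ℕ → Bool
  | 0, _, _ => false
  | r + 1, p, m => [1, 2, 3, 4, 5, 6].all fun x => !(Nat.ble x (m + 1)) ||
      force (put p (9 - r) x) fun p' => !legalB (dig p') || nf r p' (max m x)

theorem nf_spec : ∀ r ≤ 10, ∀ p m : ℕ, (∀ j, dig p j ≤ m) → ∀ C : Fin 10 → Fin 7,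
    (∀ i, (C i : ℕ) < 6) → Legal (T 10) (fun i => some (C i)) →
    (∀ j : Fin 10, dec (dig p) j = if j.1 < 10 - r then some (C j) else none) →
    nf r p m = false := by
  intro r
  induction r with
  | zero => intro _ c _ _ _ _ _ _; rfl
  | succ r ih =>
    intro hr p m hm C0 hC0 hL0 hc0
    have h7 : ∀ q j, dig q j ≤ 7 := fun q j => by rw [dig_eq]; omega
    let v : Fin 10 := ⟨9 - r, by omega⟩
    obtain ⟨C, hC, hL, hc, hvm⟩ : ∃ C : Fin 10 → Fin 7, (∀ i, (C i : ℕ) < 6) ∧
        Legal (T 10) (fun i => some (C i)) ∧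
        (∀ j : Fin 10, dec (dig p) j = if j.1 < 10 - (r + 1) then some (C j) else none) ∧
        (C v : ℕ) ≤ m := by
      by_cases hle : (C0 v : ℕ) ≤ m
      · exact ⟨C0, hC0, hL0, hc0, hle⟩
      · have := hC0 v
        let z : Fin 7 := ⟨m, by omega⟩
        refine ⟨fun i => Equiv.swap (C0 v) z (C0 i), ?_, legal_map _ (Equiv.swap (C0 v) z) _ hL0,
          ?_, by simp [z]⟩
        · intro i
          have := hC0 i
          beta_reduce
          rw [Equiv.swap_apply_def]
          split_ifs
          · simp only [z]; omega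
          · omega
          · omega
        · intro j
          have h1 := hc0 j
          rw [h1]
          split_ifs with hj
          · rw [if_pos hj] at h1
            have h2 := hm j
            unfold dec at h1
            split_ifs at h1 with h3
            simp only [Option.some.injEq, Fin.ext_iff] at h1
            beta_reduce
            rw [Equiv.swap_apply_of_ne_of_ne] <;>
              (intro e; rw [Fin.ext_iff] at e; have hz : (z : ℕ) = m := rfl; omega)
          · rfl
    have h6 := hC v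
    have hv0 : dig p (9 - r) = 0 := by
      have := hc v
      rw [if_neg (by simp only [v]; omega)] at this
      exact (dec_none _ (h7 p) v).1 this
    have hput := dig_put p (9 - r) (C v + 1) hv0 (by omega)
    have hd : ∀ j : Fin 10, dec (dig (put p (9 - r) (C v + 1))) j =
        if j.1 < 10 - r then some (C j) else none := by
      intro j
      have := dec_upd (dig p) v (C v)
      simp only [v] at this
      rw [hput, this]
      by_cases hj : j = v
      · subst hj
        rw [Function.update_self, if_pos (by simp only [v]; omega)]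
      · have hj' : j.1 ≠ 9 - r := fun e => hj (Fin.ext e)
        rw [Function.update_of_ne hj, hc j]
        have : (j.1 < 10 - (r + 1)) ↔ (j.1 < 10 - r) := by omega
        simp only [this]
    have h1 : legalB (dig (put p (9 - r) (C v + 1))) = true := by
      rw [← legal_iff _ (h7 _)]
      intro a b a' b' g1 g2 k1 k2 k3 k4 e
      apply hL a b a' b' g1 g2 (by simp) (by simp) (by simp) (by simp)
      have hh : ∀ j, dec (dig (put p (9 - r) (C v + 1))) j ≠ none →
          dec (dig (put p (9 - r) (C v + 1))) j = some (C j) := by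
        intro j hj
        rw [hd] at hj ⊢
        split_ifs at hj ⊢ with h
        · rfl
        · exact absurd rfl hj
      rw [hh a k1, hh b k2, hh a' k3, hh b' k4] at e
      exact e
    have h2 := ih (by omega) _ (max m (C v + 1)) (by
      intro j; rw [hput, upd_eq]; have := hm j; split_ifs <;> omega) C hC hL hd
    unfold nf
    rw [List.all_eq_false]
    exact ⟨C v + 1, by simp; omega, by simp [force_eq, h1, h2, hvm]⟩

theorem nf0 : nf 10 0 0 = true := by decide +kernel

theorem hw_of (s : ℕ) (h : Nat.beq (chk 6 0 0 s) 0 = false) :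
    Wins (k := 7) (T 10) (fun _ => none) := by
  have h1 := chk_spec 6 0 0 s (by norm_num) (fun j => by simp [dig_eq]) (Nat.ne_of_beq_eq_false h)
  have e : dec (dig 0) = fun _ => none := by funext j; simp [dec, dig_eq]
  rw [e] at h1
  exact h1

def strat : ℕ := 0x15af51b152d62a944c52c55485ca56ae99326b15cb264651a74ebca944e9db9528bd7b72af159b38b10a34f1ca946f1cac4666d6344488e1a5890a2336e5e44349161a6efce9c6f1cebf8e760a1291191438c4fbf2a68fc72a68bc77ae4fc77acde446471641469e39528de39588cdda458c55af8e75fc73b11fc75acc50a7af1e2918718b4786454c98a4c9d9a2cfbf142449f7e34fcf143dfc91f3de9f9ef4fcf7b2962c982461c947df8a1224fbf1a7e78a1efe48f9ef4fcf7a7e7bd94d060c946c54c98ec6cd72bdb8d5f3c6b79e35bcf5aedd1d9ae4e2c74b263242647163838b4c3d3869e9c5518c986964c252964c349971c3d3929e9cb532e984d89f4e34faf1a9d78d4ebce923235a9348d048918c5a343629634122463168d11a4682510d3a893af3a9db9d5edceaf6e945a468693af3a9db9d5edceaf6e9492248d0d4a5edd2af8e95bc74ade3ad36bdba55f3d2b79e95bcf5a6d7c74abe7a58f3d2c79eb4db78e95bcf4b1e7a58f3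da9b6f1d6b79eb63cf5b1e7b536de3ad6f3d6c79eb63cf6a8c8954a2cc913ab488a3235692128469d4468d1d5a84d1a94647163838b4c3d3869e9c5518c986964c252964c349971c3d3929e9cb532e984e09b38720c464d221a389189c38724b24a9124936f26214f1ce9a4f1cea79e7534e3a7e3c9969a74196d224c43126223d192269c74f46989a7457272641389249d38724c28931cc498e92a44926134892849f4e54fc72a9e3954f1ce8b3e9ca9f9e553cf2a9e79d167e3953f3cac79e563cf3a2d3c72a9e7958f3cac79e945a78e753cf3b1e79d8f3d28b4f1cea79e763cf3b1e7a526e5ac572c9e4464d66b974e62cd570a0ad59261ca8b35d99171222958d04b488645cc98a4cac9824fc71424fc71a7e78a1f3e29f9f14fcf8b2961c392c58c3928fc71424fc71a7e78a1f3e29f9f14fcf8b29a4498245cc990c60c96c86349508e1c96c8e2c851262a745db8d2f1c6b78e35bc72ae5a441230a312edc6979e35bcf1ade7957230a491851c978e344978e34bcf1a5e78d1f3e0cb2f3e0cb6830a412f1c6892f1c6979e34bcf1a3e7c1985e7c198f0614923464984d224a2a524c2691252a6b15cb279119359ae5d398b355c282b5649872a2cd76886b5547930c3cd86266c3133638a57b71abe38d6f1c6b78eb51275e753b73abdb9d5edd28b1b1551a3e7d78d3e7d78d3e7df8d5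ebdf8d5ebdf9d4634eb21b1599e4c30f361899b0c4cd8e423efc69f8e35fc71afe39d66ddfad6f1d6bf8eb5fc76a2c6ad64c9bbf5ade3ad7f1d6bf8ed514a5edd2af8e95bc74ade3ad36bdba55f3d2b79e95bcf5a6d7c74abe7a58f3d2c79eb4db78e95bcf4b1e7a58f3da9b6f1d6b79eb63cf5b1e7b536de3ad6f3d6c79eb63cf6a8dc9d8a8563444766a148b0d223869624288cdc94930d378e6d1b79e6cd9f3e7cfc74c7e7c583053b79304a278e753cf3b1e79d8f3d2933f1ca9f9e563cf2b1e79d52b1a493b361a78e553cf2b1e7958f3d2a9493189c58b164172b9f245d1923e8c91f46586922c349971c4c9a69d3cba6265d31da65c713269a74f2e989974c867124938b24a45925881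

theorem chk0 : Nat.beq (chk 6 0 0 strat) 0 = false := by decide +kernel

theorem result :
    IsLeast {k : ℕ | ∃ c : Fin 10 → Fin k, Legal (T 10) (fun v => some (c v))} 7 ∧
      Wins (k := 7) (T 10) (fun _ => none) ∧
      ¬ ∀ c, Move (k := 7) (T 10) (fun _ => none) c → Wins (T 10) c := by
  have hw := hw_of strat chk0
  refine ⟨⟨?_, ?_⟩, hw, not_both _ _ hw⟩
  · refine ⟨![0, 1, 2, 3, 4, 0, 5, 6, 1, 4], ?_⟩
    have := (legal_iff (fun j => [1, 2, 3, 4, 5, 1, 6, 7, 2, 5].getD j 0) (by
      intro j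
      rcases j with _ | _ | _ | _ | _ | _ | _ | _ | _ | _ | j <;> simp)).2 (by decide +kernel)
    have e : dec (fun j => [1, 2, 3, 4, 5, 1, 6, 7, 2, 5].getD j 0) =
        fun v => some ((![0, 1, 2, 3, 4, 0, 5, 6, 1, 4] : Fin 10 → Fin 7) v) := by
      funext v; revert v; decide
    rw [e] at this
    exact this
  · rintro k ⟨c, hc⟩
    by_contra hk
    have hk' : k ≤ 7 := by omega
    have := nf_spec 10 le_rfl 0 0 (fun j => by simp [dig_eq]) (fun i => Fin.castLE hk' (c i)) (fun i => by
      have := (c i).2; simp only [Fin.val_castLE]; omega) (by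
      intro a b a' b' g1 g2 _ _ _ _ e
      apply hc a b a' b' g1 g2 (by simp) (by simp) (by simp) (by simp)
      rw [Sym2.eq_iff] at e ⊢
      simpa using e) (fun j => by simp [dec, dig_eq])
    rw [nf0] at this
    exact absurd this (by simp)

end Pool.Agent.Results.MP_08a4a0_co.Ten
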